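import Pool.Agent.Helper86.Acute.Mask

/-! Sign rules for four points and the check that they imply membership in the table `ok4`. -/

namespace Pool.Agent.Helper86.Acute

/-- positive inner product at the first point -/
def dA (s : St) : Bool := St.casesOn s true false true true
/-- positive inner product at the second point -/
def dB (s : St) : Bool := St.casesOn s true true false true
/-- positive inner product at the third point -/
def dC (s : St) : Bool := St.casesOn s true true true false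

/-- Sign form of `(u.v)(v.w) - (u x v)(v x w) = |v|^2 (u.w)`; arguments: signs of
`u.v`, `v.w`, `u x v`, `v x w`, `u.w` (true = positive). -/
def reR (duv dvw cuv cvw duw : Bool) : Bool :=
  ((duv == dvw) == (cuv == cvw)) || (duw == (duv == dvw))

/-- Sign form of `(u.v)(v x w) + (u x v)(v.w) = |v|^2 (u x w)`; arguments: signs of
`u.v`, `v.w`, `u x v`, `v x w`, `u x w`. -/
def imR (duv dvw cuv cvw cuw : Bool) : Bool :=
  ((duv == cvw) != (cuv == dvw)) || (cuw == (duv == cvw))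

/-- A convex quadrilateral does not have four acute or four obtuse angles. -/
def quR (c1 c2 c3 c4 d1 d2 d3 d4 : Bool) : Bool :=
  !((c1 == c2) && (c2 == c3) && (c3 == c4)) || !((d1 == d2) && (d2 == d3) && (d3 == d4))

/-- If `c` is inside the triangle `a b d` and the angle `a c b` is acute, so is `a d b`;
arguments: orientations of `abd`, `abc`, `bdc`, `dac`, signs at `c` and at `d`. -/
def inR (oabd oabc obdc odac atc atd : Bool) : Bool :=
  !((oabd == oabc) && (oabd == obdc) && (oabd == odac)) || !atc || atd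

/-- All sign rules. -/
def rules (s1 s2 s3 s4 : St) (b1 b2 b3 b4 : Bool) : Bool :=
  (reR (dA s1) (dA s3) b1 b3 (dA s2)) &&
  (imR (dA s1) (dA s3) b1 b3 b2) &&
  (reR (dA s2) (dA s3) b2 (!b3) (dA s1)) &&
  (imR (dA s2) (dA s3) b2 (!b3) b1) &&
  (reR (dA s1) (dA s2) (!b1) b2 (dA s3)) &&
  (imR (dA s1) (dA s2) (!b1) b2 b3) &&
  (reR (dB s1) (dA s4) (!b1) b4 (dB s2)) &&
  (imR (dB s1) (dA s4) (!b1) b4 (!b2)) &&
  (reR (dB s2) (dA s4) (!b2) (!b4) (dB s1)) &&
  (imR (dB s2) (dA s4) (!b2) (!b4) (!b1)) &&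
  (reR (dB s1) (dB s2) b1 (!b2) (dA s4)) &&
  (imR (dB s1) (dB s2) b1 (!b2) b4) &&
  (reR (dC s1) (dB s4) b1 (!b4) (dB s3)) &&
  (imR (dC s1) (dB s4) b1 (!b4) (!b3)) &&
  (reR (dB s3) (dB s4) (!b3) b4 (dC s1)) &&
  (imR (dB s3) (dB s4) (!b3) b4 b1) &&
  (reR (dC s1) (dB s3) (!b1) (!b3) (dB s4)) &&
  (imR (dC s1) (dB s3) (!b1) (!b3) (!b4)) &&
  (reR (dC s2) (dC s4) b2 b4 (dC s3)) &&
  (imR (dC s2) (dC s4) b2 b4 b3) &&
  (reR (dC s3) (dC s4) b3 (!b4) (dC s2)) &&
  (imR (dC s3) (dC s4) b3 (!b4) b2) &&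
  (reR (dC s2) (dC s3) (!b2) b3 (dC s4)) &&
  (imR (dC s2) (dC s3) (!b2) b3 b4) &&
  (quR b1 b4 b3 b2 (dA s2) (dB s1) (dB s4) (dC s3)) &&
  (quR b2 (!b4) (!b3) b1 (dA s1) (dB s2) (dC s4) (dB s3)) &&
  (quR (!b1) (!b4) b2 b3 (dA s3) (dC s1) (dA s4) (dC s2)) &&
  (inR b4 b3 (!b2) b1 (dA s3) (dA s4)) &&
  (inR (!b4) b2 (!b3) (!b1) (dA s2) (dB s4)) &&
  (inR b4 b1 b3 (!b2) (dA s1) (dC s4)) &&
  (inR b3 b4 b2 (!b1) (dA s4) (dA s3)) &&
  (inR (!b3) (!b2) (!b4) b1 (dB s2) (dB s3)) &&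
  (inR b3 (!b1) b4 b2 (dB s1) (dC s3)) &&
  (inR b2 (!b4) b3 b1 (dB s4) (dA s2)) &&
  (inR (!b2) (!b3) b4 (!b1) (dB s3) (dB s2)) &&
  (inR b2 b1 (!b4) b3 (dC s1) (dC s2)) &&
  (inR b1 b4 (!b3) b2 (dC s4) (dA s1)) &&
  (inR (!b1) b3 (!b4) (!b2) (dC s3) (dB s1)) &&
  (inR b1 b2 b4 (!b3) (dC s2) (dC s1))

/-- Test for all booleans. -/
def allB (f : Bool → Bool) : Bool := f true && f false

theorem rules_chk : (all4 fun s1 => all4 fun s2 => all4 fun s3 => all4 fun s4 =>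
    allB fun b1 => allB fun b2 => allB fun b3 => allB fun b4 =>
      (!rules s1 s2 s3 s4 b1 b2 b3 b4) || ok4 s1 s2 s3 s4 b1 b2 b3 b4) = true := by
  decide +kernel

theorem all4_spec {f : St → Bool} (h : all4 f = true) (s : St) : f s = true := by
  simp only [all4, Bool.and_eq_true] at h
  cases s <;> simp [h]

theorem allB_spec {f : Bool → Bool} (h : allB f = true) (b : Bool) : f b = true := by
  simp only [allB, Bool.and_eq_true] at h
  cases b <;> simp [h]

theorem ok4_of_rules {s1 s2 s3 s4 : St} {b1 b2 b3 b4 : Bool}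
    (h : rules s1 s2 s3 s4 b1 b2 b3 b4 = true) : ok4 s1 s2 s3 s4 b1 b2 b3 b4 = true := by
  have := allB_spec (allB_spec (allB_spec (allB_spec (all4_spec (all4_spec (all4_spec
    (all4_spec rules_chk s1) s2) s3) s4) b1) b2) b3) b4
  simpa [h] using this

end Pool.Agent.Helper86.Acute
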