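import Pool.Agent.Helper86.Acute.Basic

/-! The table of realizable oriented patterns of four points: for the states of the four
triples (012), (013), (023), (123) the sixteen bits say which orientation patterns occur. -/

namespace Pool.Agent.Helper86.Acute

/-- The table. -/
def maskT : T4 := .node (.node (.node (.node .nil (.leaf 576) (.leaf 32769) (.leaf 4104)) (.node
  (.leaf 576) (.leaf 576) .nil .nil) (.node (.leaf 4104) .nil (.leaf 37257) (.leaf 4104)) (.node
  (.leaf 32769) .nil (.leaf 32769) (.leaf 38937))) (.node (.node (.leaf 32769) .nil (.leaf 32769)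
  .nil) (.node (.leaf 41541) (.leaf 8772) (.leaf 40965) .nil) (.node .nil .nil (.leaf 33153) .nil)
  (.node (.leaf 32769) .nil (.leaf 32769) (.leaf 32769))) (.node (.node (.leaf 4104) (.leaf 21066)
  .nil (.leaf 4104)) (.node .nil (.leaf 16962) .nil .nil) (.node (.leaf 4104) (.leaf 20490) (.leaf
  4488) (.leaf 4104)) (.node .nil .nil .nil (.leaf 4104))) (.node (.node (.leaf 576) (.leaf 576)
  .nil (.leaf 6744)) (.node (.leaf 576) (.leaf 576) .nil (.leaf 576)) (.node .nil .nil .nil (.leaf
  4104)) (.node (.leaf 35409) (.leaf 576) (.leaf 32769) (.leaf 2064)))) (.node (.node (.node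
  (.leaf 4104) .nil .nil (.leaf 4104)) (.node (.leaf 12876) (.leaf 8772) .nil (.leaf 12300))
  (.node (.leaf 4104) .nil (.leaf 4104) (.leaf 4104)) (.node .nil .nil .nil (.leaf 6168))) (.node
  (.node (.leaf 45069) .nil (.leaf 40965) (.leaf 12300)) (.node (.leaf 8196) (.leaf 8196) (.leaf
  8196) (.leaf 8196)) (.node (.leaf 4104) .nil (.leaf 45453) (.leaf 4104)) (.node (.leaf 32769)
  .nil (.leaf 32769) (.leaf 47133))) (.node (.node (.leaf 4104) (.leaf 4104) .nil (.leaf 4104))
  (.node (.leaf 4104) (.leaf 29262) .nil (.leaf 4104)) (.node (.leaf 4104) (.leaf 4104) (.leaf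
  4104) .nil) (.node .nil .nil .nil (.leaf 4104))) (.node (.node .nil .nil .nil (.leaf 6168))
  (.node (.leaf 576) (.leaf 576) .nil (.leaf 14940)) (.node .nil .nil .nil (.leaf 4104)) (.node
  .nil .nil .nil (.leaf 2064)))) (.node (.node (.node (.leaf 32769) (.leaf 49731) (.leaf 32769)
  .nil) (.node .nil (.leaf 16962) .nil .nil) (.node .nil .nil (.leaf 32769) .nil) (.node (.leaf
  32769) (.leaf 49155) (.leaf 32769) (.leaf 34833))) (.node (.node (.leaf 32769) (.leaf 32769)
  (.leaf 32769) .nil) (.node (.leaf 32769) (.leaf 57927) (.leaf 32769) .nil) (.node .nil .nil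
  (.leaf 32769) .nil) (.node (.leaf 32769) (.leaf 32769) .nil (.leaf 32769))) (.node (.node (.leaf
  53259) (.leaf 16386) (.leaf 32769) (.leaf 4104)) (.node .nil (.leaf 16386) .nil .nil) (.node
  (.leaf 20490) (.leaf 16386) (.leaf 53643) (.leaf 4104)) (.node (.leaf 49155) (.leaf 16386)
  (.leaf 32769) (.leaf 55323))) (.node (.node .nil (.leaf 576) .nil .nil) (.node .nil (.leaf 576)
  .nil .nil) .nil (.node (.leaf 34833) (.leaf 51795) (.leaf 32769) (.leaf 2064)))) (.node (.node
  (.node (.leaf 576) (.leaf 576) (.leaf 33729) .nil) (.node (.leaf 576) (.leaf 576) (.leaf 576)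
  .nil) (.node (.leaf 5064) (.leaf 576) (.leaf 384) (.leaf 4104)) (.node .nil .nil (.leaf 32769)
  .nil)) (.node (.node .nil .nil (.leaf 33153) .nil) (.node (.leaf 576) (.leaf 576) (.leaf 41925)
  .nil) (.node .nil .nil (.leaf 384) .nil) (.node .nil .nil (.leaf 32769) .nil)) (.node (.node
  .nil (.leaf 576) .nil .nil) (.node .nil (.leaf 576) .nil .nil) (.node (.leaf 4488) (.leaf 21450)
  (.leaf 384) (.leaf 4104)) .nil) (.node (.node (.leaf 576) (.leaf 576) (.leaf 960) (.leaf 2640))
  (.node (.leaf 576) .nil (.leaf 576) (.leaf 576)) (.node (.leaf 960) (.leaf 576) (.leaf 384)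
  (.leaf 7128)) (.node (.leaf 2640) (.leaf 576) (.leaf 35793) (.leaf 2064))))

/-- `ok4 s1 s2 s3 s4 b1 b2 b3 b4`: the pattern of four points with states `s1 .. s4` and
orientations `b1 .. b4` of the triples (012), (013), (023), (123) is in the table. -/
def ok4 (s1 s2 s3 s4 : St) (b1 b2 b3 b4 : Bool) : Bool :=
  Nat.testBit (((((maskT.sel s1).sel s2).sel s3).sel s4).val)
    (b1.toNat + 2 * b2.toNat + 4 * b3.toNat + 8 * b4.toNat)

end Pool.Agent.Helper86.Acute
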