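
/-! Basic data types for the kernel computations on patterns of triangles. -/

namespace Pool.Agent.Helper86.Acute

/-- State of an ordered triple of points: `a` all angles acute, `b` obtuse at the first,
`c` obtuse at the second, `d` obtuse at the third point. -/
inductive St where
  | a : St
  | b : St
  | c : St
  | d : St

/-- Trees with four children. -/
inductive T4 where
  | nil : T4
  | leaf : Nat → T4
  | node : T4 → T4 → T4 → T4 → T4

/-- The child of a tree selected by a state. -/
def T4.sel (t : T4) (s : St) : T4 :=
  T4.casesOn t .nil (fun _ => .nil) (fun x y z w => St.casesOn s x y z w)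

/-- The number stored at a leaf. -/
def T4.val (t : T4) : Nat :=
  T4.casesOn t 0 (fun n => n) (fun _ _ _ _ => 0)

/-- Evaluate a tree and continue, succeeding at once on the empty tree. -/
def T4.go (t : T4) (k : T4 → Bool) : Bool :=
  T4.casesOn t true (fun n => k (.leaf n)) (fun x y z w => k (.node x y z w))

/-- Test for all states. -/
def all4 (f : St → Bool) : Bool := and (f .a) (and (f .b) (and (f .c) (f .d)))

/-- exchange of the first two points -/
def r12 (s : St) : St := St.casesOn s .a .c .b .d
/-- exchange of the last two points -/
def r23 (s : St) : St := St.casesOn s .a .b .d .c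

end Pool.Agent.Helper86.Acute
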