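import Mathlib
import Pool.Agent.Helper86.Acute.Basic
import Pool.Agent.Helper86.Acute.Mask

/-! Definitions for MP_1a78aa_co and the statements of the geometric parts. -/

namespace Pool.Agent.Helper86.Acute

open Filter Topology

/-- The Euclidean plane. -/
abbrev Pt := EuclideanSpace ℝ (Fin 2)

/-- The number of non-acute angles of a configuration: triples `(i, j, k)` with `i < k`, `j`
different from both and angle at `P j` at least `π / 2`. -/
noncomputable def nonAcute {n : ℕ} (P : Fin n → Pt) : ℕ :=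
  Nat.card {t : Fin n × Fin n × Fin n // t.1 < t.2.2 ∧ t.2.1 ≠ t.1 ∧ t.2.1 ≠ t.2.2 ∧
    Real.pi / 2 ≤ EuclideanGeometry.angle (P t.1) (P t.2.1) (P t.2.2)}

/-- The smallest proportion of non-acute angles among `n` distinct points of the plane. -/
noncomputable def minProp (n : ℕ) : ℝ :=
  (⨅ P : {P : Fin n → Pt // Function.Injective P}, (nonAcute P.1 : ℝ)) /
    ((n : ℝ) * (n - 1) * (n - 2) / 2)

/-- Inner product of `P j - P i` and `P k - P i` in coordinates. -/
def dot {n : ℕ} (X Y : Fin n → ℝ) (i j k : Fin n) : ℝ :=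
  (X j - X i) * (X k - X i) + (Y j - Y i) * (Y k - Y i)

/-- Cross product of `P j - P i` and `P k - P i` in coordinates. -/
def crs {n : ℕ} (X Y : Fin n → ℝ) (i j k : Fin n) : ℝ :=
  (X j - X i) * (Y k - Y i) - (Y j - Y i) * (X k - X i)

/-- Generic configurations: no right angles, no collinear triples. -/
def Gen {n : ℕ} (X Y : Fin n → ℝ) : Prop :=
  ∀ i j k : Fin n, i ≠ j → i ≠ k → j ≠ k → dot X Y i j k ≠ 0 ∧ crs X Y i j k ≠ 0

open Classical in
/-- The state of an ordered triple: where its obtuse angle is (`a` if there is none, and `a` for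
triples that are not distinct). -/
noncomputable def st {n : ℕ} (X Y : Fin n → ℝ) (i j k : Fin n) : St :=
  if i = j ∨ i = k ∨ j = k then .a
  else if dot X Y i j k < 0 then .b
  else if dot X Y j i k < 0 then .c
  else if dot X Y k i j < 0 then .d
  else .a

open Classical in
/-- Orientation of an ordered triple. -/
noncomputable def ori {n : ℕ} (X Y : Fin n → ℝ) (i j k : Fin n) : Bool :=
  decide (0 < crs X Y i j k)

/-- The number of ordered acute triples of a generic configuration. -/
noncomputable def acuteCount {n : ℕ} (X Y : Fin n → ℝ) : ℕ :=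
  Nat.card {t : Fin n × Fin n × Fin n // t.1 ≠ t.2.1 ∧ t.1 ≠ t.2.2 ∧ t.2.1 ≠ t.2.2 ∧
    st X Y t.1 t.2.1 t.2.2 = .a}

/-- Packet GEO. -/
def GeoStmt : Prop := ∀ (n : ℕ) (X Y : Fin n → ℝ), Gen X Y →
  (∀ i j k, st X Y j i k = r12 (st X Y i j k)) ∧
  (∀ i j k, st X Y i k j = r23 (st X Y i j k)) ∧
  (∀ i j k l, i ≠ j → i ≠ k → i ≠ l → j ≠ k → j ≠ l → k ≠ l →
    ok4 (st X Y i j k) (st X Y i j l) (st X Y i k l) (st X Y j k l)
      (ori X Y i j k) (ori X Y i j l) (ori X Y i k l) (ori X Y j k l) = true)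

/-- Packet PERT: a generic configuration that keeps all acute triangles. -/
def PertStmt : Prop := ∀ (n : ℕ) (P : Fin n → Pt), Function.Injective P →
  ∃ X Y : Fin n → ℝ, Gen X Y ∧ ∀ i j k : Fin n, i ≠ j → i ≠ k → j ≠ k →
    EuclideanGeometry.angle (P j) (P i) (P k) < Real.pi / 2 →
    EuclideanGeometry.angle (P i) (P j) (P k) < Real.pi / 2 →
    EuclideanGeometry.angle (P i) (P k) (P j) < Real.pi / 2 →
    st X Y i j k = .a

/-- Packet FIN (to be proved from `PertStmt`): from a bound for generic configurations to the limit. -/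
def FinStmt : Prop := ∀ lam C : ℝ,
  (∀ (n : ℕ) (X Y : Fin n → ℝ), Gen X Y → (acuteCount X Y : ℝ) ≤ lam * n ^ 3 + C * n ^ 2) →
  ∃ L : ℝ, Tendsto minProp atTop (𝓝 L) ∧ (1 - lam) / 3 ≤ L

end Pool.Agent.Helper86.Acute
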